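import Pool.Agent.Helper99.MKV.GoalsC

/-!
# MKV, packet LMA: a charge of scale `K` multiplied by a slowly varying function
-/

set_option autoImplicit false

open Finset

namespace Pool.Agent.Helper87.MKV

open Pool.Agent.Helper99.MKV
open Pool.Agent.Helper99.EXC (Bx hk La Df nm)
open Pool.Agent.Helper99.ERW (Site Dir vec box mem_box)

theorem Gk_nonneg (b k : ℕ) (x : Site 2) : 0 ≤ Gk b k x := by
  unfold Gk
  have h : 0 ≤ nm x := by unfold Pool.Agent.Helper99.EXC.nm; positivity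
  split_ifs <;> positivity

theorem Nk_nonneg (b k : ℕ) (x : Site 2) : 0 ≤ Nk b k x := by
  unfold Nk
  have h : 0 ≤ nm x := by unfold Pool.Agent.Helper99.EXC.nm; positivity
  split_ifs <;> positivity

theorem Bx_succ (b k : ℕ) (x : Site 2) (h : x ∈ Bx b k) : x ∈ Bx b (k + 1) := by
  unfold Pool.Agent.Helper99.EXC.Bx at h ⊢
  rw [mem_box] at h ⊢
  intro i
  have h1 := h i
  have h2 : ((b * 2 ^ k : ℕ) : ℤ) ≤ ((b * 2 ^ (k + 1) : ℕ) : ℤ) := by
    have : b * 2 ^ k ≤ b * 2 ^ (k + 1) := Nat.mul_le_mul_left b (Nat.pow_le_pow_right (by norm_num) (Nat.le_succ k))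
    exact_mod_cast this
  exact h1.trans h2

theorem LMA (hSMS : SMS_stmt) (hINC : INC_stmt) (hVIS : VIS_stmt) (hYVB : YVB_stmt) :
    LMA_stmt := by
  intro κ C b B hκ hC hb hB
  obtain ⟨C1, hC1, hY⟩ := hYVB κ C b B hκ hC hb hB
  obtain ⟨C2, hC2, hV⟩ := hVIS κ C b B hκ hC hb hB
  obtain ⟨C3, hC3, -, -, -, -, -, hN, -, -⟩ := hSMS b hb
  have hC30 : 0 ≤ C3 := by linarith
  have hB0 : 0 ≤ B := by linarith
  obtain ⟨C4, hC4⟩ : ∃ C4, C4 = C1 + 2 * κ * B := ⟨_, rfl⟩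
  have hC40 : 0 ≤ C4 := by rw [hC4]; positivity
  refine ⟨(C2 * C1 * C3 + 2 * C1 + C2 * C1 + C2 * C4) / κ, by positivity, ?_⟩
  intro E ι _ U a S φ Φ k1 hD hX K s hk1 hK1 hKs N s0 A v hW G γ δ ρ hG hδ hρ hGδ hGρ
  have hA : 0 ≤ A := hW.1
  have hU := hD.ok
  have hγ : 0 ≤ γ := (abs_nonneg _).trans (hG s0)
  have hs : k1 ≤ s := hk1.trans hKs
  have hYt := hY E ι U a S φ Φ k1 hD hX K K hk1 le_rfl A v hW
  have hVs := hV E ι U a S φ Φ k1 hD hX s hs N s0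
  have hK0 : (0 : ℝ) < K := by exact_mod_cast hK1
  -- the objects
  obtain ⟨c, hc⟩ : ∃ c : MSt E → ℝ, c = VV S (Bx b K) v := ⟨_, rfl⟩
  obtain ⟨Y, hYd⟩ : ∃ Y : MSt E → ℝ, Y = Yv κ φ Φ S b K K v := ⟨_, rfl⟩
  obtain ⟨Z, hZd⟩ : ∃ Z : MSt E → ℝ, Z = fun t => Y t - κ * K * c t := ⟨_, rfl⟩
  rw [← hc]
  have hZ : ∀ t, |Z t| ≤ C1 * A := by
    intro t
    have := (hYt t).1
    rw [hZd, hYd, hc]
    exact this
  have hΔY : ∀ t (i : ι) (e : Dir 2), |Y (nxt U t i e) - Y t| ≤ C1 * A * Gk b K t.1 := by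
    intro t i e
    rw [hYd]
    exact (hYt t).2.1 i e
  have hDY : ∀ t, |Dr U Y t| ≤ C1 * A * Nk b K t.1 := by
    intro t
    have := (hYt t).2.2
    rw [hYd]
    simpa using this
  have hΔc : ∀ t (i : ι) (e : Dir 2), |κ * K * (c (nxt U t i e) - c t)| ≤
      2 * κ * B * A * Gk b K t.1 := by
    intro t i e
    have h1 := (hINC E ι U t i e).1 S (Bx b K) v
    rw [hc, h1]
    split_ifs with hm
    · have hGk : Gk b K t.1 = 1 / 2 ^ K := by
        unfold Gk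
        rw [if_pos (Bx_succ b K _ hm)]
      rw [hGk]
      have h2 : |v t.1| ≤ A / 4 ^ K := hW.2.2.1 t.1
      have h3 : |S t.1 (U.nx t.1 (t.2 t.1) i) - S t.1 (t.2 t.1)| ≤ 2 * B := by
        have h4 := hD.bd t.1 (U.nx t.1 (t.2 t.1) i)
        have h5 := hD.bd t.1 (t.2 t.1)
        rw [abs_le] at h4 h5 ⊢
        constructor <;> linarith [h4.1, h4.2, h5.1, h5.2]
      have h6 : |v t.1 * (S t.1 (U.nx t.1 (t.2 t.1) i) - S t.1 (t.2 t.1))| ≤
          A / 4 ^ K * (2 * B) := by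
        rw [abs_mul]
        exact mul_le_mul h2 h3 (abs_nonneg _) (by positivity)
      rw [abs_mul, abs_of_nonneg (show (0 : ℝ) ≤ κ * K by positivity)]
      have h7 : (K : ℝ) ≤ 2 ^ K := by exact_mod_cast (Nat.lt_two_pow_self (n := K)).le
      have h8 : (4 : ℝ) ^ K = 2 ^ K * 2 ^ K := by
        rw [← mul_pow]; norm_num
      calc κ * K * |v t.1 * (S t.1 (U.nx t.1 (t.2 t.1) i) - S t.1 (t.2 t.1))|
          ≤ κ * K * (A / 4 ^ K * (2 * B)) := by gcongr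
        _ ≤ κ * 2 ^ K * (A / 4 ^ K * (2 * B)) := by gcongr
        _ = 2 * κ * B * A * (1 / 2 ^ K) := by
            rw [h8]; field_simp
    · have := Gk_nonneg b K t.1
      rw [mul_zero, abs_zero]
      positivity
  have hΔZ : ∀ t (i : ι) (e : Dir 2), |Z (nxt U t i e) - Z t| ≤ C4 * A * Gk b K t.1 := by
    intro t i e
    have h1 := hΔY t i e
    have h2 := hΔc t i e
    have h3 : Z (nxt U t i e) - Z t = (Y (nxt U t i e) - Y t) -
        κ * K * (c (nxt U t i e) - c t) := by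
      rw [hZd]; ring
    rw [h3]
    refine (abs_sub _ _).trans ?_
    rw [hC4]
    nlinarith [h1, h2]
  -- the sums
  obtain ⟨R, hR⟩ : ∃ R : ℝ, R = Rw U (Bx b (s + 1)) N (fun t => G t * Dr U c t) s0 := ⟨_, rfl⟩
  rw [← hR]
  have hDZ : ∀ t, Dr U Z t = Dr U Y t - κ * K * Dr U c t := by
    intro t
    rw [hZd, Dr_sub Y (fun t => κ * K * c t), Dr_smul]
  have e1 : κ * K * R = Rw U (Bx b (s + 1)) N (fun t => G t * Dr U Y t) s0 -
      Rw U (Bx b (s + 1)) N (fun t => G t * Dr U Z t) s0 := by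
    rw [hR, ← Rw_smul, ← Rw_sub]
    refine Rw_congr _ N (fun t _ => ?_) s0
    rw [hDZ]
    ring
  have b1 : |Rw U (Bx b (s + 1)) N (fun t => G t * Dr U Y t) s0| ≤
      C2 * (s + 1) * (γ * C1 * A * C3) := by
    have h1 : |Rw U (Bx b (s + 1)) N (fun t => G t * Dr U Y t) s0| ≤
        Rw U (Bx b (s + 1)) N (fun t => γ * (C1 * A * Nk b K t.1)) s0 := by
      refine Rw_abs_le _ hU N (fun t _ => ?_) s0
      rw [abs_mul]
      exact mul_le_mul (hG t) (hDY t) (abs_nonneg _) hγ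
    have h2 := hVs (fun x => γ * (C1 * A * Nk b K x)) (fun x => by
      have := Nk_nonneg b K x
      positivity)
    have h3 : ∑ x ∈ Bx b (s + 1), γ * (C1 * A * Nk b K x) ≤ γ * C1 * A * C3 := by
      rw [← Finset.mul_sum, ← Finset.mul_sum]
      have := hN K (s + 1)
      calc γ * (C1 * A * ∑ x ∈ Bx b (s + 1), Nk b K x) ≤ γ * (C1 * A * C3) := by gcongr
        _ = γ * C1 * A * C3 := by ring
    calc |Rw U (Bx b (s + 1)) N (fun t => G t * Dr U Y t) s0|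
        ≤ Rw U (Bx b (s + 1)) N (fun t => γ * (C1 * A * Nk b K t.1)) s0 := h1
      _ ≤ C2 * (s + 1) * ∑ x ∈ Bx b (s + 1), γ * (C1 * A * Nk b K x) := h2
      _ ≤ C2 * (s + 1) * (γ * C1 * A * C3) := by gcongr
  have e2 := Rw_parts (U := U) (Bx b (s + 1)) hU N G Z s0
  have b2 : |Ex U (Bx b (s + 1)) N (fun t => G t * Z t) s0| ≤ γ * (C1 * A) := by
    refine Ex_abs_le _ hU N (fun t => ?_) s0
    rw [abs_mul]
    exact mul_le_mul (hG t) (hZ t) (abs_nonneg _) hγ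
  have b3 : |G s0 * Z s0| ≤ γ * (C1 * A) := by
    rw [abs_mul]
    exact mul_le_mul (hG s0) (hZ s0) (abs_nonneg _) hγ
  have b4 : |Rw U (Bx b (s + 1)) N (fun t => Z t * Dr U G t) s0| ≤
      C2 * (s + 1) * (C1 * A * ∑ x ∈ Bx b (s + 1), δ x) := by
    have h1 : |Rw U (Bx b (s + 1)) N (fun t => Z t * Dr U G t) s0| ≤
        Rw U (Bx b (s + 1)) N (fun t => C1 * A * δ t.1) s0 := by
      refine Rw_abs_le _ hU N (fun t ht => ?_) s0
      rw [abs_mul]
      exact mul_le_mul (hZ t) (hGδ t ht) (abs_nonneg _) (by positivity)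
    have h2 := hVs (fun x => C1 * A * δ x) (fun x => by
      have := hδ x
      positivity)
    rw [← Finset.mul_sum] at h2
    exact h1.trans h2
  have b5 : |Rw U (Bx b (s + 1)) N (fun t => Gam U G Z t) s0| ≤
      C2 * (s + 1) * (C4 * A * ∑ x ∈ Bx b (s + 1), ρ x * Gk b K x) := by
    have h1 : |Rw U (Bx b (s + 1)) N (fun t => Gam U G Z t) s0| ≤
        Rw U (Bx b (s + 1)) N (fun t => C4 * A * (ρ t.1 * Gk b K t.1)) s0 := by
      refine Rw_abs_le _ hU N (fun t ht => ?_) s0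
      have h3 := Gam_abs_le (U := U) hU (s := t) (hρ t.1) (hGρ t ht) (hΔZ t)
      calc |Gam U G Z t| ≤ ρ t.1 * (C4 * A * Gk b K t.1) := h3
        _ = C4 * A * (ρ t.1 * Gk b K t.1) := by ring
    have h2 := hVs (fun x => C4 * A * (ρ x * Gk b K x)) (fun x => by
      have := hρ x
      have := Gk_nonneg b K x
      positivity)
    rw [← Finset.mul_sum] at h2
    exact h1.trans h2
  obtain ⟨D1, hD1⟩ : ∃ D1 : ℝ, D1 = ∑ x ∈ Bx b (s + 1), δ x := ⟨_, rfl⟩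
  obtain ⟨D2, hD2⟩ : ∃ D2 : ℝ, D2 = ∑ x ∈ Bx b (s + 1), ρ x * Gk b K x := ⟨_, rfl⟩
  rw [← hD1] at b4 ⊢
  rw [← hD2] at b5 ⊢
  have hD10 : 0 ≤ D1 := by rw [hD1]; exact Finset.sum_nonneg fun x _ => hδ x
  have hD20 : 0 ≤ D2 := by
    rw [hD2]; exact Finset.sum_nonneg fun x _ => mul_nonneg (hρ x) (Gk_nonneg b K x)
  have hs1 : (1 : ℝ) ≤ (s : ℝ) + 1 := by
    have : (0 : ℝ) ≤ s := by positivity
    linarith
  have key : κ * K * |R| ≤ (C2 * C1 * C3 + 2 * C1 + C2 * C1 + C2 * C4) * A * (s + 1) *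
      (γ + D1 + D2) := by
    have h0 : κ * K * |R| = |κ * K * R| := by
      rw [abs_mul, abs_of_nonneg (show (0 : ℝ) ≤ κ * K by positivity)]
    rw [h0, e1, e2]
    have h1 : |Rw U (Bx b (s + 1)) N (fun t => G t * Dr U Y t) s0 -
        (Ex U (Bx b (s + 1)) N (fun t => G t * Z t) s0 - G s0 * Z s0 -
          Rw U (Bx b (s + 1)) N (fun t => Z t * Dr U G t) s0 -
          Rw U (Bx b (s + 1)) N (fun t => Gam U G Z t) s0)| ≤
        C2 * (s + 1) * (γ * C1 * A * C3) + γ * (C1 * A) + γ * (C1 * A) +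
          C2 * (s + 1) * (C1 * A * D1) + C2 * (s + 1) * (C4 * A * D2) := by
      rw [abs_le] at b1 b2 b3 b4 b5 ⊢
      constructor <;> linarith [b1.1, b1.2, b2.1, b2.2, b3.1, b3.2, b4.1, b4.2, b5.1, b5.2]
    refine h1.trans ?_
    have t1 : γ * (C1 * A) ≤ γ * (C1 * A) * (s + 1) := by
      have : 0 ≤ γ * (C1 * A) := by positivity
      nlinarith
    have t2 : 0 ≤ A * (s + 1) * (C2 * C1 * C3 + 2 * C1) * (D1 + D2) := by positivity
    have t3 : 0 ≤ A * (s + 1) * (C2 * C1) * (γ + D2) := by positivity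
    have t4 : 0 ≤ A * (s + 1) * (C2 * C4) * (γ + D1) := by positivity
    nlinarith [t1, t2, t3, t4]
  have hfin : |R| ≤ ((C2 * C1 * C3 + 2 * C1 + C2 * C1 + C2 * C4) * A * (s + 1) *
      (γ + D1 + D2)) / (κ * K) := by
    rw [le_div_iff₀ (by positivity)]
    linarith
  refine hfin.trans (le_of_eq ?_)
  field_simp

end Pool.Agent.Helper87.MKV
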